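import Pool.Agent.Helper24.AL.St
import Pool.Agent.Helper56.SW.Basic

/-!
# AL MODULE MX: harmonic sums
-/

set_option autoImplicit false

namespace Pool.Agent.Helper9.AL

open Finset Matrix
open Pool.Agent.Helper56.SW (τ Γ I bx E Rel N Nq mem_I mem_I' card_I)
open Pool.Agent.Helper24.AL

lemma cardErase (B : ℕ) : ((I B).erase 0).card = 2 * B := by
  have h3 : (0 : ℤ) ∈ I B := by rw [mem_I]; simp
  rw [card_erase_of_mem h3, card_I]
  omega

lemma mx_le {A B : ℕ} (w : ℤ × ℤ) : mx A B w ≤ A :=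
  (min_le_left _ _).trans (Nat.div_le_self _ _)

lemma le_mx {A B j : ℕ} {w : ℤ × ℤ} (hw : w ∈ Bz A B) (hj1 : 1 ≤ j) (hj : j ≤ mx A B w) :
    w ∈ ((I (A / j)).erase 0) ×ˢ ((I (B / j)).erase 0) := by
  obtain ⟨h1, h2, h3⟩ := mem_filter.1 hw
  have a1 : 0 < w.1.natAbs := Int.natAbs_pos.2 h2
  have a2 : 0 < w.2.natAbs := Int.natAbs_pos.2 h3
  have b1 : j ≤ A / w.1.natAbs := hj.trans (min_le_left _ _)
  have b2 : j ≤ B / w.2.natAbs := hj.trans (min_le_right _ _)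
  rw [Nat.le_div_iff_mul_le a1] at b1
  rw [Nat.le_div_iff_mul_le a2] at b2
  rw [mem_product, mem_erase, mem_erase, mem_I', mem_I', Nat.le_div_iff_mul_le hj1,
    Nat.le_div_iff_mul_le hj1]
  refine ⟨⟨h2, ?_⟩, h3, ?_⟩
  · rw [mul_comm]; exact b1
  · rw [mul_comm]; exact b2

lemma card_lev (A B j : ℕ) (hj : 1 ≤ j) :
    (((Bz A B).filter fun w => j ≤ mx A B w).card : ℝ) ≤ 4 * A * B / (j : ℝ) ^ 2 := by
  have hj0 : (0 : ℝ) < j := by exact_mod_cast hj
  have h1 : ((Bz A B).filter fun w => j ≤ mx A B w).card ≤ (2 * (A / j)) * (2 * (B / j)) := by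
    rw [← cardErase, ← cardErase, ← card_product]
    refine card_le_card ?_
    intro w hw
    obtain ⟨h1, h2⟩ := mem_filter.1 hw
    exact le_mx h1 hj h2
  have h2 : ((A / j : ℕ) : ℝ) ≤ (A : ℝ) / j := Nat.cast_div_le
  have h3 : ((B / j : ℕ) : ℝ) ≤ (B : ℝ) / j := Nat.cast_div_le
  calc (((Bz A B).filter fun w => j ≤ mx A B w).card : ℝ)
      ≤ (((2 * (A / j)) * (2 * (B / j)) : ℕ) : ℝ) := by exact_mod_cast h1
    _ = 4 * (((A / j : ℕ) : ℝ) * ((B / j : ℕ) : ℝ)) := by push_cast; ring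
    _ ≤ 4 * ((A : ℝ) / j * ((B : ℝ) / j)) := by
        refine mul_le_mul_of_nonneg_left ?_ (by norm_num)
        exact mul_le_mul h2 h3 (Nat.cast_nonneg _) (by positivity)
    _ = 4 * A * B / (j : ℝ) ^ 2 := by field_simp

lemma swap (A B : ℕ) (f g : ℕ → ℝ) (hg : ∀ j, 0 ≤ g j)
    (hf : ∀ m, f m ≤ ∑ j ∈ Icc 1 m, g j) :
    ∑ w ∈ Bz A B, f (mx A B w) ≤ ∑ j ∈ Icc 1 A, g j * (4 * A * B / (j : ℝ) ^ 2) := by
  have h1 : ∀ w ∈ Bz A B, f (mx A B w) ≤
      ∑ j ∈ Icc 1 A, if j ≤ mx A B w then g j else 0 := by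
    intro w _
    refine (hf _).trans (le_of_eq ?_)
    rw [← sum_filter]
    refine sum_congr ?_ fun _ _ => rfl
    ext j
    simp only [mem_Icc, mem_filter]
    have := mx_le (A := A) (B := B) w
    omega
  refine (sum_le_sum h1).trans ?_
  rw [sum_comm]
  refine sum_le_sum fun j hj => ?_
  rw [← sum_filter, sum_const, nsmul_eq_mul, mul_comm]
  exact mul_le_mul_of_nonneg_left (card_lev A B j (mem_Icc.1 hj).1) (hg j)

lemma sum2 (m : ℕ) : (m : ℝ) ^ 2 ≤ ∑ j ∈ Icc 1 m, 2 * (j : ℝ) := by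
  induction m with
  | zero => simp
  | succ m ih =>
    rw [sum_Icc_succ_top (by omega)]
    push_cast
    nlinarith

lemma sum3 (m : ℕ) : (m : ℝ) ^ 3 ≤ ∑ j ∈ Icc 1 m, 3 * (j : ℝ) ^ 2 := by
  induction m with
  | zero => simp
  | succ m ih =>
    rw [sum_Icc_succ_top (by omega)]
    push_cast
    have : (0 : ℝ) ≤ m := Nat.cast_nonneg _
    nlinarith

lemma harm (A : ℕ) : ∑ j ∈ Icc 1 A, ((j : ℝ))⁻¹ ≤ 1 + Real.log A := by
  have h := harmonic_le_one_add_log A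
  rw [harmonic_eq_sum_Icc] at h
  push_cast at h
  exact h

/-- MX. -/
theorem hMX : StMX := by
  intro A B hA hB
  constructor
  · refine (swap A B (fun m => (m : ℝ) ^ 2) (fun j => 2 * (j : ℝ)) (fun j => by positivity)
      sum2).trans ?_
    have h1 : ∀ j ∈ Icc 1 A, 2 * (j : ℝ) * (4 * A * B / (j : ℝ) ^ 2) =
        8 * A * B * ((j : ℝ))⁻¹ := by
      intro j hj
      have : (0 : ℝ) < j := by exact_mod_cast (mem_Icc.1 hj).1
      field_simp
      ring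
    rw [sum_congr rfl h1, ← mul_sum]
    exact mul_le_mul_of_nonneg_left (harm A) (by positivity)
  · refine (swap A B (fun m => (m : ℝ) ^ 3) (fun j => 3 * (j : ℝ) ^ 2) (fun j => by positivity)
      sum3).trans ?_
    have h1 : ∀ j ∈ Icc 1 A, 3 * (j : ℝ) ^ 2 * (4 * A * B / (j : ℝ) ^ 2) = 12 * A * B := by
      intro j hj
      have : (0 : ℝ) < j := by exact_mod_cast (mem_Icc.1 hj).1
      field_simp
      ring
    rw [sum_congr rfl h1, sum_const, Nat.card_Icc, nsmul_eq_mul]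
    have : A + 1 - 1 = A := by omega
    rw [this]
    refine le_of_eq ?_
    ring

end Pool.Agent.Helper9.AL
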